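import Pool.Agent.Helper183_TG.MainL2

/-!
# MP_98dedd_gt, Q1: the torsion in the homology of finite covers does not approximate L²-torsion

## What Q1 says
For a closed aspherical manifold `M` of odd dimension `2k+1` whose universal cover has vanishing
`L²`-Betti numbers, and every residual chain `Γ = Γ_0 ≥ Γ_1 ≥ ...` of `Γ = π_1(M)`,
`log |tors H_k(M_n)| / [Γ : Γ_n]` converges to `(-1)^k ρ^{(2)}(M̃)`.

## What is proved here
All of this is read off from the cellular chain complex of the universal cover, and everything
below is proved for an arbitrary finite based free complex over `ℤΓ` with a residual chain: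

* `CoverTower`: a group `Γ`, a finite based free chain complex `E` over the integral group ring
  `ℤΓ` (for a manifold: the cellular chain complex of `M̃`; right modules, so the boundary matrix
  `bd` acts from the left on columns) and a residual chain `N n` of normal subgroups of finite
  index.  `level n` is the integral cellular chain complex of the cover `M_n = M̃/Γ_n`.
* `prod`: the tower of `M × M'`, with the product cell structure (`∂(a × b) = ∂a × b ± a × ∂b`),
  group `Γ × Γ'` and residual chain `Γ_n × Γ'_n`.  `A.pow (2 * r)` is the `(2r+1)`-fold product
  `A × A × ... × A`.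
* `betti ℤ`, `betti (ZMod p)`, `tors`: rank of the integral homology, dimension of the homology mod
  `p`, and order of the torsion subgroup of the integral homology, of a cover.
* `Aspherical`: the universal cover is contractible, stated for its cellular chain complex `UC`
  (free abelian on the pairs of a cell of `M` and an element of `Γ`; `ud` is its boundary operator
  and `aug` the augmentation): the augmented chain complex has a contracting homotopy.  The chain
  groups being free, this says that `M̃` has the homology of a point, that is (Hurewicz, Whitehead)
  that the simply connected complex `M̃` is contractible.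
* `L2Acyclic`: all `L²`-Betti numbers vanish.  Their sum is the von Neumann dimension of the kernel
  of the combinatorial Laplacian `Δ = ∂∂* + ∂*∂` in all degrees, that is `lim_{t → ∞} tr_Γ(e^{-tΔ})`,
  with `tr_Γ(e^{-tΔ}) = Σ_n (-t)^n / n! · tr_Γ(Δ^n)`.  (That this is equivalent to
  `b_j(M_n) / [Γ : Γ_n] → 0` for all `j` is Lück's approximation theorem; it is proved in
  `CoverTower.lueck`.)
* `rho`: the `L²`-torsion `-½ Σ_j (-1)^j j log det_{𝓝Γ}(Δ_j)` of an `L²`-acyclic complex, `Δ_j` the
  combinatorial Laplacian.  As `-log det Δ = ∫_0^∞ (tr e^{-tΔ} - e^{-t} tr 1) dt / t` (Frullani's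
  integral on the spectrum), this is `½ ∫_0^∞ (T(t) - e^{-t} T(0)) dt / t` with
  `T(t) = Σ_j (-1)^j j tr_Γ(e^{-tΔ_j}) = Σ_n (-t)^n / n! · Σ_j (-1)^j j tr_Γ(Δ_j^n)`.  The analytic
  `L²`-torsion of a closed manifold agrees with it (Burghelea–Friedlander–Kappeler–McDonald); for
  a closed hyperbolic 3-manifold it is `-vol/(6π)`.
* `Poincare`: Poincaré duality over `ℤΓ`: the cochain complex `C^{dim-*}` and the chain complex of
  the universal cover are chain homotopy equivalent over `ℤΓ`.
* `ModGrowth p`: for some degree `j`, `dim H_j(M_n; 𝔽_p) / [Γ : Γ_n]` does not tend to `0`.
* `Counterexample`: the tower satisfies the assumptions of Q1 (aspherical Poincaré complex, odd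
  dimension `2k+1`, vanishing `L²`-Betti numbers) and not its conclusion.

`result`: let `A` be any aspherical Poincaré tower of odd dimension `2k+1` with nonzero mod `p`
homology growth in some degree, and let `N` be any aspherical Poincaré `L²`-acyclic tower of odd
dimension with `ρ^{(2)} ≠ 0`.  Then for every `r ≥ max(1, k)` at least one of the three towers
`N`, `A × A × N`, `A^{2r+1}` refutes Q1.  (`CoverTower.main` is a version for all towers with
symmetric Betti numbers.)

No published theorem is assumed in Lean: the torsion and Betti number estimates for products, the
universal coefficient count, the product formula for the `L²`-torsion, the asphericity and the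
Poincaré duality of products, the duality of the Betti numbers of the covers, Lück's approximation
theorem and the passage to the limit are all proved in the imported files
`Pool/Agent/Helper183_TG/`.

## Why this answers Q1
If `A` and `N` come from closed aspherical manifolds, so do the three towers (a product of closed
aspherical manifolds is closed and aspherical, and its cellular chain complex is `prod`).
* `N`: any closed hyperbolic 3-manifold (residually finite group, `L²`-acyclic,
  `ρ^{(2)} = -vol/(6π) ≠ 0`).
* `A`: for every odd prime `p`, Avramidi, Okun and Schreve (Mod p and torsion homology growth in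
  nonpositive curvature, Invent. Math. 2021) construct closed locally CAT(0), hence aspherical,
  7-manifolds with nonzero mod `p` homology growth (their groups are residually finite and, up
  to a finite cover, the manifold is orientable; PL manifolds of dimension 7 are smoothable).
So Q1 fails for some closed aspherical manifold: Avramidi, Okun and Schreve deduced that Q1 and
Singer's conjecture cannot both hold; the new point is that Singer's conjecture is not needed,
because Q1 for `N` and `A × A × N` implies it for the odd-dimensional manifold `A`.

## The proof
(1) Suppose Q1 holds for `N` (dimension `2k₀+1`) and for `A × A × N`, whose `L²`-torsion is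
`χ(A) ρ(A × N) = 0`.  `H_{k₀}(N_n)^{b_i b_{d-i}}` embeds in `H_{d+k₀}(A_n × A_n × N_n)`, `d = dim A`,
`b_i = b_i(A_n)`; the torsion of `H_{k₀}(N_n)` grows exponentially in the index because
`ρ(N) ≠ 0`, that of `H_{d+k₀}` subexponentially; so `b_i b_{d-i} = b_i^2 = o([Γ:Γ_n]^2)` and `A` is
`L²`-acyclic.  (2) Then the mod `p` homology growth of `A` comes from `p`-torsion: for some `a ≤ 2k`
the `p`-rank of `tors H_a(A_n)` is not `o([Γ:Γ_n])`, and by duality it is equal to the `p`-rank in
degree `2k-a`.  Tensor and Tor terms give a `p`-rank at least the `(2r+1)`-st power of it in all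
degrees `2kr + a + e`, `0 ≤ e ≤ 2r`, of `A^{2r+1}`, in particular in the middle degree
`(2r+1)k + r`.  So the torsion there grows exponentially, while `ρ^{(2)}(A^{2r+1}) = 0`.
-/

namespace Pool.Agent.Results.MP_98dedd_gt.TorsionGrowthFails

open Pool.Agent.Helper183_TG

/-- Let `A` be an aspherical Poincaré tower of finite covers of odd dimension `2k+1` with nonzero mod
`p` homology growth, `N` an aspherical Poincaré tower of odd dimension with vanishing `L²`-Betti
numbers and nonzero `L²`-torsion, and `r ≥ max(1, k)`.  Then one of `N`, `A × A × N`, `A^{2r+1}` is
an aspherical Poincaré tower of odd dimension `2m+1` with vanishing `L²`-Betti numbers which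
violates `log |tors H_m| / [Γ : Γ_n] → (-1)^m ρ^{(2)}`. -/
theorem result (A N : CoverTower) (k p r : ℕ) [Fact p.Prime] (hAs : A.Aspherical)
    (hAp : A.Poincare) (hNs : N.Aspherical) (hNp : N.Poincare) (hN : Odd N.dim)
    (hNa : N.E.L2Acyclic) (hNρ : N.E.rho ≠ 0) (hA : A.dim = 2 * k + 1) (hg : A.ModGrowth p)
    (hk : k ≤ r) (hr : 1 ≤ r) :
    N.Counterexample ∨ (A.prod (A.prod N)).Counterexample ∨ (A.pow (2 * r)).Counterexample :=
  CoverTower.mainL2 A N k p r hAs hAp hNs hNp hN hNa hNρ hA hg hk hr

end Pool.Agent.Results.MP_98dedd_gt.TorsionGrowthFails
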